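import Mathlib

/-!
# Infinitely many Delta-primitive squares

The surface `1/x - x = (1/y - y) + (1/z - z)` carries, over the parameter `x`, an elliptic
fibration with a section of infinite order (the trivial solutions `y = 1`, `z = x`).  Three times
that section gives an explicit family of solutions with `x = 1/(1+4s)`, all of whose numerators
and denominators are congruent to `1` or `-1` modulo `s`.  So there are squares in `N(Delta)`
whose square root is coprime to any given integer, and hence infinitely many primitive squares.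
-/

namespace Pool.Agent.Results.MP_2b20db_nt.InfDeltaPrimSquares

/-- `DStar n` is the set `D*_n` of the differences `|a - b|` of complementary divisors
`a, b` of `n` (that is, `a` and `b` divide `n` and `a * b = n`). -/
def DStar (n : ℕ) : Set ℕ :=
  {d | ∃ a ∈ n.divisors, ∃ b ∈ n.divisors, a * b = n ∧ (d : ℤ) = |(a : ℤ) - (b : ℤ)|}

/-- `DPlus n` is the set `D+_n` of the sums `x + y` with `x, y` nonzero elements of `D*_n`
(`x = y` is allowed). -/
def DPlus (n : ℕ) : Set ℕ :=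
  {d | ∃ x ∈ DStar n, ∃ y ∈ DStar n, x ≠ 0 ∧ y ≠ 0 ∧ d = x + y}

/-- The positive integer `n` has the Delta property if `D*_n` and `D+_n` meet. -/
def HasDelta (n : ℕ) : Prop :=
  0 < n ∧ (DStar n ∩ DPlus n).Nonempty

/-- `n` is Delta-primitive if it has the Delta property and there are no integers
`α ≥ 2`, `m ≥ 2` with `n = α ^ 2 * m` such that `m` has the Delta property. -/
def DeltaPrimitive (n : ℕ) : Prop :=
  HasDelta n ∧ ¬ ∃ α m : ℕ, 2 ≤ α ∧ 2 ≤ m ∧ n = α ^ 2 * m ∧ HasDelta m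

lemma mem_DStar {n a b d : ℕ} (hn : n ≠ 0) (hab : a * b = n) (hd : b = a + d) :
    d ∈ DStar n := by
  refine ⟨a, ?_, b, ?_, hab, ?_⟩
  · rw [Nat.mem_divisors]; exact ⟨⟨b, hab.symm⟩, hn⟩
  · rw [Nat.mem_divisors]; exact ⟨⟨a, by rw [← hab, mul_comm]⟩, hn⟩
  · subst hd
    push_cast
    rw [show (a : ℤ) - (a + d) = -d by ring, abs_neg, abs_of_nonneg (by positivity)]

/-- The five factors of the explicit square root, with `s = t + 1`. -/
def fb (s : ℕ) : ℕ := 4 * s + 1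
def f1 (s : ℕ) : ℕ := 16 * s ^ 3 + 24 * s ^ 2 + 8 * s + 1
def f2 (s : ℕ) : ℕ := 16 * s ^ 3 + 8 * s ^ 2 + 4 * s + 1
def f3 (s : ℕ) : ℕ := 16 * s ^ 3 + 16 * s ^ 2 + 8 * s + 1
def f4 (t : ℕ) : ℕ := 16 * t ^ 3 + 48 * t ^ 2 + 44 * t + 11

def root (t : ℕ) : ℕ := fb (t + 1) * f1 (t + 1) * f2 (t + 1) * f3 (t + 1) * f4 t

lemma root_pos (t : ℕ) : 0 < root t := by
  unfold root fb f1 f2 f3 f4; positivity

lemma root_gt_one (t : ℕ) : 1 < root t := by
  have h : 11 ≤ f4 t := by unfold f4; omega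
  have h2 : 0 < fb (t + 1) * f1 (t + 1) * f2 (t + 1) * f3 (t + 1) := by
    unfold fb f1 f2 f3; positivity
  unfold root
  nlinarith

lemma root_hasDelta (t : ℕ) : HasDelta (root t ^ 2) := by
  have hn : root t ^ 2 ≠ 0 := by have := root_pos t; positivity
  refine ⟨Nat.pos_of_ne_zero hn, ?_⟩
  -- the three differences
  obtain ⟨b, hb⟩ : ∃ b, b = fb (t + 1) := ⟨_, rfl⟩
  obtain ⟨g1, hg1⟩ : ∃ b, b = f1 (t + 1) := ⟨_, rfl⟩
  obtain ⟨g2, hg2⟩ : ∃ b, b = f2 (t + 1) := ⟨_, rfl⟩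
  obtain ⟨g3, hg3⟩ : ∃ b, b = f3 (t + 1) := ⟨_, rfl⟩
  obtain ⟨h, hh⟩ : ∃ b, b = f4 t := ⟨_, rfl⟩
  have hroot : root t = b * g1 * g2 * g3 * h := by rw [hb, hg1, hg2, hg3, hh]; rfl
  have pb : 1 < b := by rw [hb]; unfold fb; omega
  have p1 : 0 < g1 := by rw [hg1]; unfold f1; positivity
  have p2 : 0 < g2 := by rw [hg2]; unfold f2; positivity
  have p3 : 0 < g3 := by rw [hg3]; unfold f3; positivity
  have ph : 0 < h := by rw [hh]; unfold f4; positivity
  -- first difference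
  obtain ⟨D1, hD1⟩ : ∃ D1, b ^ 2 * (g1 * g2 * g3 * h) = g1 * g2 * g3 * h + D1 := by
    refine ⟨(b ^ 2 - 1) * (g1 * g2 * g3 * h), ?_⟩
    have : 1 ≤ b ^ 2 := Nat.one_le_pow _ _ (by omega)
    obtain ⟨c, hc⟩ := Nat.exists_eq_add_of_le this
    rw [hc, Nat.add_sub_cancel_left]; ring
  have hD1pos : D1 ≠ 0 := by
    rintro rfl
    have : 0 < g1 * g2 * g3 * h := by positivity
    nlinarith
  -- comparison
  have hcmp : g2 * h < g1 * g3 := by
    rw [hg1, hg2, hg3, hh]; unfold f1 f2 f3 f4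
    have : 0 ≤ t := Nat.zero_le t
    ring_nf
    nlinarith [pow_nonneg this 2, pow_nonneg this 3, pow_nonneg this 4, pow_nonneg this 5, pow_nonneg this 6]
  obtain ⟨D2, hD2⟩ : ∃ D2, b * (g1 * g3) ^ 2 = b * (g2 * h) ^ 2 + D2 := by
    have : b * (g2 * h) ^ 2 ≤ b * (g1 * g3) ^ 2 := by
      gcongr
    obtain ⟨D2, h2⟩ := Nat.exists_eq_add_of_le this
    exact ⟨D2, h2⟩
  have hD2pos : D2 ≠ 0 := by
    rintro rfl
    have h1 : (g2 * h) ^ 2 < (g1 * g3) ^ 2 := by gcongr
    have h2 : b * (g2 * h) ^ 2 < b * (g1 * g3) ^ 2 := by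
      apply Nat.mul_lt_mul_of_pos_left h1; omega
    omega
  have key : b ^ 2 * (g2 * g3) ^ 2 = (g1 * h) ^ 2 + (D1 + D2) := by
    have e1 : (D1 : ℤ) = (b ^ 2 - 1) * (g1 * g2 * g3 * h) := by
      have := congrArg (Nat.cast : ℕ → ℤ) hD1
      push_cast at this
      linarith
    have e2 : (D2 : ℤ) = b * (g1 * g3) ^ 2 - b * (g2 * h) ^ 2 := by
      have := congrArg (Nat.cast : ℕ → ℤ) hD2
      push_cast at this
      linarith
    have : ((b ^ 2 * (g2 * g3) ^ 2 : ℕ) : ℤ) = (((g1 * h) ^ 2 + (D1 + D2) : ℕ) : ℤ) := by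
      push_cast
      rw [e1, e2, hb, hg1, hg2, hg3, hh]
      unfold fb f1 f2 f3 f4
      push_cast
      ring
    exact_mod_cast this
  have m1 : D1 ∈ DStar (root t ^ 2) :=
    mem_DStar hn (a := g1 * g2 * g3 * h) (b := b ^ 2 * (g1 * g2 * g3 * h))
      (by rw [hroot]; ring) hD1
  have m2 : D2 ∈ DStar (root t ^ 2) :=
    mem_DStar hn (a := b * (g2 * h) ^ 2) (b := b * (g1 * g3) ^ 2)
      (by rw [hroot]; ring) hD2
  have m3 : D1 + D2 ∈ DStar (root t ^ 2) :=
    mem_DStar hn (a := (g1 * h) ^ 2) (b := b ^ 2 * (g2 * g3) ^ 2)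
      (by rw [hroot]; ring) key
  exact ⟨D1 + D2, m3, D1, m1, D2, m2, hD1pos, hD2pos, rfl⟩

lemma root_coprime (t : ℕ) : Nat.Coprime (root t) (t + 1) := by
  have key : ∀ s q : ℕ, Nat.Coprime (s * q + 1) s := by
    intro s q
    simp [Nat.coprime_mul_left_add_left]
  have hb : Nat.Coprime (fb (t + 1)) (t + 1) := by
    have := key (t + 1) 4
    convert this using 1
    unfold fb; ring
  have h1 : Nat.Coprime (f1 (t + 1)) (t + 1) := by
    have := key (t + 1) (16 * (t + 1) ^ 2 + 24 * (t + 1) + 8)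
    convert this using 1
    unfold f1; ring
  have h2 : Nat.Coprime (f2 (t + 1)) (t + 1) := by
    have := key (t + 1) (16 * (t + 1) ^ 2 + 8 * (t + 1) + 4)
    convert this using 1
    unfold f2; ring
  have h3 : Nat.Coprime (f3 (t + 1)) (t + 1) := by
    have := key (t + 1) (16 * (t + 1) ^ 2 + 16 * (t + 1) + 8)
    convert this using 1
    unfold f3; ring
  have h4 : Nat.Coprime (f4 t) (t + 1) := by
    rw [Nat.coprime_iff_gcd_eq_one]
    have hd : Nat.gcd (f4 t) (t + 1) ∣ 1 := by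
      have d1 : Nat.gcd (f4 t) (t + 1) ∣ f4 t := Nat.gcd_dvd_left _ _
      have d2 : Nat.gcd (f4 t) (t + 1) ∣ (t + 1) := Nat.gcd_dvd_right _ _
      have d3 : Nat.gcd (f4 t) (t + 1) ∣ (t + 1) * (16 * (t + 1) ^ 2) := Dvd.dvd.mul_right d2 _
      have e : (t + 1) * (16 * (t + 1) ^ 2) = f4 t + (t + 1) * 4 + 1 := by
        unfold f4; ring
      rw [e] at d3
      have d4 : Nat.gcd (f4 t) (t + 1) ∣ f4 t + (t + 1) * 4 := Dvd.dvd.add d1 (Dvd.dvd.mul_right d2 _)
      exact (Nat.dvd_add_right d4).mp d3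
    exact Nat.dvd_one.mp hd
  unfold root
  exact Nat.Coprime.mul_left (Nat.Coprime.mul_left (Nat.Coprime.mul_left (Nat.Coprime.mul_left hb h1) h2) h3) h4

/-- There are infinitely many positive integers `k` such that the square `k ^ 2` is
Delta-primitive. -/
theorem result : {k : ℕ | 0 < k ∧ DeltaPrimitive (k ^ 2)}.Infinite := by
  intro hfin
  classical
  -- a number divisible by every such `k`
  obtain ⟨s, hs⟩ : ∃ s, s = ∏ k ∈ hfin.toFinset, k := ⟨_, rfl⟩
  have hspos : 0 < s := by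
    rw [hs]
    apply Finset.prod_pos
    intro k hk
    rw [Set.Finite.mem_toFinset] at hk
    exact hk.1
  obtain ⟨t, ht⟩ : ∃ t, s = t + 1 := ⟨s - 1, by omega⟩
  have hcop : Nat.Coprime (root t) s := by rw [ht]; exact root_coprime t
  -- the least divisor at least 2 of `root t` whose square has the Delta property
  have hex : ∃ d : ℕ, 2 ≤ d ∧ d ∣ root t ∧ HasDelta (d ^ 2) :=
    ⟨root t, root_gt_one t, dvd_rfl, root_hasDelta t⟩
  obtain ⟨h2, hd, hD⟩ := Nat.find_spec hex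
  have hmin : ∀ m < Nat.find hex, ¬ (2 ≤ m ∧ m ∣ root t ∧ HasDelta (m ^ 2)) :=
    fun m hm => Nat.find_min hex hm
  generalize Nat.find hex = d at h2 hd hD hmin
  have hprim : DeltaPrimitive (d ^ 2) := by
    refine ⟨hD, ?_⟩
    rintro ⟨α, m, hα, hm, he, hmD⟩
    have hαd : α ∣ d := by
      rw [← Nat.pow_dvd_pow_iff (n := 2) (by norm_num), he]
      exact Dvd.intro _ rfl
    obtain ⟨e, rfl⟩ := hαd
    have hme : m = e ^ 2 := by
      rw [mul_pow] at he
      exact (Nat.eq_of_mul_eq_mul_left (by positivity) he).symm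
    subst hme
    have he2 : 2 ≤ e := by
      by_contra hlt
      interval_cases e <;> omega
    refine hmin e ?_ ⟨he2, (Dvd.intro_left α rfl).trans hd, hmD⟩
    nlinarith
  have hmem : d ∈ hfin.toFinset := by
    rw [Set.Finite.mem_toFinset]
    exact ⟨by omega, hprim⟩
  have hds : d ∣ s := by rw [hs]; exact Finset.dvd_prod_of_mem _ hmem
  have : d ∣ 1 := by
    have := Nat.dvd_gcd hd hds
    rwa [Nat.Coprime.gcd_eq_one hcop] at this
  have := Nat.dvd_one.mp this
  omega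

end Pool.Agent.Results.MP_2b20db_nt.InfDeltaPrimSquares
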